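import Pool.Agent.TH57.Thr.VCM

set_option autoImplicit false

/-! For every group `G` (torsion allowed), a `ℤG`-module with a finite presentation matrix of
operator norm less than `3 / √2` is a finite direct sum of modules induced from virtually cyclic
subgroups, and if it is projective then so are the modules over the group rings of these
subgroups. -/

namespace Pool.Agent.Results.MP_e40716_gt.SmallNormModules

open TH57.Thr

theorem result (G : Type) [Group G]
    (P : Type) [AddCommGroup P] [Module (MonoidAlgebra ℤ G) P]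
    (m n : ℕ) (A : Matrix (Fin m) (Fin n) (MonoidAlgebra ℤ G))
    (e : P ≃ₗ[MonoidAlgebra ℤ G]
      ((Fin n → MonoidAlgebra ℤ G) ⧸ LinearMap.range A.vecMulLinear))
    (c : ℝ) (hc0 : 0 < c) (hc : c ^ 2 < 9 / 2) (hA : NormLE A c) :
    ∃ (k : ℕ) (V : Fin k → Subgroup G) (p q : Fin k → ℕ)
      (B : ∀ b, Matrix (Fin (p b)) (Fin (q b)) (MonoidAlgebra ℤ (V b))),
      (∀ b, ∃ s : V b, (Subgroup.zpowers s).FiniteIndex) ∧
      Nonempty (P ≃ₗ[MonoidAlgebra ℤ G] ∀ b, ((Fin (q b) → MonoidAlgebra ℤ G) ⧸
        LinearMap.range ((B b).map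
          (MonoidAlgebra.mapDomainRingHom ℤ (V b).subtype)).vecMulLinear)) ∧
      (Module.Projective (MonoidAlgebra ℤ G) P →
        ∀ b, Module.Projective (MonoidAlgebra ℤ (V b)) ((Fin (q b) → MonoidAlgebra ℤ (V b)) ⧸
          LinearMap.range (B b).vecMulLinear)) :=
  module_small G P m n A e c hc0 hc hA

end Pool.Agent.Results.MP_e40716_gt.SmallNormModules
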